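import Pool.Agent.H31.Hilb

set_option autoImplicit false

namespace Pool.Agent.Results.MP_28bd58_gt.Main

open Pool.Agent.H31.Hilb

theorem result (M : Set (ℝ × ℝ)) (hO : IsOpen M) (hc : Convex ℝ M) (hb : Bornology.IsBounded M)
    (hne : M.Nonempty) (d : ℝ × ℝ → ℝ × ℝ → ℝ) (hd : IsHilbertMetric M d) (ε : ℝ) (hε : 0 < ε) :
    ∃ A B C O P Q R : ℝ × ℝ, A ∈ M ∧ B ∈ M ∧ C ∈ M ∧ ¬ Collinear ℝ {A, B, C} ∧
      (∃ a b c : ℝ, 0 < a ∧ 0 < b ∧ 0 < c ∧ a + b + c = 1 ∧ O = a • A + b • B + c • C) ∧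
      IsFoot M d O B C P ∧ IsFoot M d O C A Q ∧ IsFoot M d O A B R ∧
      0 < Real.tanh (d O P) + Real.tanh (d O Q) + Real.tanh (d O R) ∧
      (Real.tanh (d O A) + Real.tanh (d O B) + Real.tanh (d O C)) /
        (Real.tanh (d O P) + Real.tanh (d O Q) + Real.tanh (d O R)) < 2 + ε :=
  main hO hc hb hne hd hε

end Pool.Agent.Results.MP_28bd58_gt.Main
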